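import Pool.Agent.N641.VB.Stm

set_option autoImplicit false

/-!
# VB/IND: an additive assignment of types with splitting is the assignment of the types (helper907)
-/

namespace Pool.Agent.N907.VB

open Pool.Agent.N641.VB

variable {M : Type} [AddCommMonoid M]

/-- the first components of a realised type -/
theorem fst_eq {t : FT M} (h : Rl t) (k : ℕ) : (t (k + 1)).1 = (t 1).1 := by
  obtain ⟨A', _, mu', a', _, rfl⟩ := h
  rfl

/-- the full splitting, everything on the left -/
theorem left_mem {t : FT M} (h : Rl t) (k : ℕ) :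
    ((t k, (0 : TP M k)) : TP M k × TP M k) ∈ (t (k + 1)).2 := by
  obtain ⟨A', _, mu', a', hm, rfl⟩ := h
  refine ⟨a', le_rfl, ?_⟩
  rw [sdiff_self, tp_bot hm k]
  rfl

/-- the full splitting, everything on the right -/
theorem right_mem {t : FT M} (h : Rl t) (k : ℕ) :
    (((0 : TP M k), t k) : TP M k × TP M k) ∈ (t (k + 1)).2 := by
  obtain ⟨A', _, mu', a', hm, rfl⟩ := h
  refine ⟨⊥, bot_le, ?_⟩
  rw [sdiff_bot, tp_bot hm k]
  rfl

theorem IND : S_IND := by
  intro M _ _ A _ τ hR h0 hs hsp
  have hAM : AM (fun x => (τ x 1).1) := by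
    constructor
    · show (τ ⊥ 1).1 = 0
      have h1 := h0 ⊥
      obtain ⟨A', _, mu', a', hm, e⟩ := hR ⊥
      rw [← e] at h1 ⊢
      have h2 : (a' = ⊥) = ((⊥ : A) = ⊥) := h1
      have h3 : a' = ⊥ := h2.mpr rfl
      rw [h3]
      exact hm.bot
    · intro a b hab
      show (τ (a ⊔ b) 1).1 = (τ a 1).1 + (τ b 1).1
      rw [hs a b hab]
      rfl
  refine ⟨hAM, ?_⟩
  have key : ∀ (k : ℕ) (x : A), tp (fun x => (τ x 1).1) k x = τ x k := by
    intro k
    induction k with
    | zero =>
      intro x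
      exact (h0 x).symm
    | succ k ih =>
      intro x
      refine Prod.ext (fst_eq (hR x) k).symm ?_
      ext q
      constructor
      · rintro ⟨b, hb, rfl⟩
        rw [ih, ih]
        have e : τ x = τ b + τ (x \ b) := by
          rw [← hs b (x \ b) disjoint_sdiff_self_right, sup_sdiff_cancel_right hb]
        rw [e]
        refine ⟨(τ b k, 0), left_mem (hR b) k, (0, τ (x \ b) k), right_mem (hR (x \ b)) k, ?_⟩
        have e1 : pa k (τ b k) (0 : TP M k) = τ b k := add_zero (τ b k)
        have e2 : pa k (0 : TP M k) (τ (x \ b) k) = τ (x \ b) k := zero_add (τ (x \ b) k)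
        show (τ b k, τ (x \ b) k) = (pa k (τ b k) (0 : TP M k), pa k (0 : TP M k) (τ (x \ b) k))
        rw [e1, e2]
      · intro hq
        obtain ⟨A', _, mu', a', hm, e⟩ := hR x
        have hq' : q ∈ (ft mu' a' (k + 1)).2 := by rwa [e]
        obtain ⟨b', hb', rfl⟩ := hq'
        have hsum : ft mu' b' + ft mu' (a' \ b') = τ x := by
          rw [← ft_sup hm b' (a' \ b') disjoint_sdiff_self_right, sup_sdiff_cancel_right hb', e]
        obtain ⟨y, hy, h1, h2⟩ := hsp x k (ft mu' b') (ft mu' (a' \ b'))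
          ⟨A', _, mu', b', hm, rfl⟩ ⟨A', _, mu', a' \ b', hm, rfl⟩ hsum
        refine ⟨y, hy, ?_⟩
        rw [ih, ih, h1, h2]
        rfl
  intro x
  funext k
  exact key k x

end Pool.Agent.N907.VB
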